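import Pool.Agent.Run7.h96.IX.Stm2

/-!
Project IX (helper96), piece EX0 (second copy); the text follows helper382's proof of EX.
-/

set_option autoImplicit false

open Filter Topology

namespace Run7.h459.IX

open Run7.h96.IX

theorem t_EX0 : S_PAD → S_EX0 := by
  intro hPAD γ v η hγ hv0 hv2 hη hyp lam c hc hlam hcl
  obtain ⟨-, pad2, -, pad4⟩ := hPAD
  obtain ⟨W, hW⟩ : ∃ W : ℝ, W = v + γ + η + 1 := ⟨_, rfl⟩
  have hW1 : 1 ≤ W := by linarith
  have hW0 : 0 < W := by linarith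
  obtain ⟨k, he⟩ : ∃ e : ℝ, e = η / (4 * W) := ⟨_, rfl⟩
  have hk0 : 0 < k := by rw [he]; positivity
  have heW : W * k = η / 4 := by rw [he]; field_simp
  have he1 : k ≤ 1 / 4 := by
    rw [he, div_le_iff₀ (by positivity)]; linarith
  have hkη : k ≤ η / 4 := by
    have := mul_le_mul_of_nonneg_right hW1 hk0.le
    linarith
  have hk1 : k ≤ 1 := by linarith
  obtain ⟨p, hp, hp1, hp2⟩ := hyp
  obtain ⟨n0, hn0⟩ := hp k hk0
  have ev1 : ∀ᶠ n : ℕ in atTop, (lam n : ℝ) / n < k := hlam.eventually_lt_const hk0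
  have ev2 : ∀ᶠ n : ℕ in atTop, γ - k < -Real.logb 2 (c n) / n :=
    hcl.eventually_const_lt (by linarith)
  have ev3 : ∀ᶠ n : ℕ in atTop, max (2 * (n0 : ℝ) + 2) (4 * (2 + W) / η) ≤ (n : ℝ) :=
    tendsto_natCast_atTop_atTop.eventually_ge_atTop _
  filter_upwards [ev1, ev2, ev3, eventually_gt_atTop 0] with n h1 h2 h3 hn
  have hnR : (0 : ℝ) < n := by exact_mod_cast hn
  have h3a := (le_max_left _ _).trans h3
  have h3b := (le_max_right _ _).trans h3
  rw [div_le_iff₀ hη] at h3b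
  rw [div_lt_iff₀ hnR] at h1
  have h5 : k * n ≤ 1 / 4 * n := mul_le_mul_of_nonneg_right he1 hnR.le
  -- the number `r`
  obtain ⟨r, hr⟩ : ∃ r : ℕ, r = lam n := ⟨_, rfl⟩
  rw [← hr] at h1
  have hrn : r ≤ n := by
    have : (r : ℝ) ≤ n := by linarith
    exact_mod_cast this
  obtain ⟨q, hq⟩ : ∃ q : ℕ, q + r = n := ⟨n - r, Nat.sub_add_cancel hrn⟩
  have hqR : (q : ℝ) + r = n := by exact_mod_cast hq
  have hq0 : (0 : ℝ) ≤ q := Nat.cast_nonneg _
  have hr0 : (0 : ℝ) ≤ r := Nat.cast_nonneg _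
  have hqn0 : n0 ≤ q := by
    have : (n0 : ℝ) ≤ q := by linarith
    exact_mod_cast this
  obtain ⟨P, K, hP, hK, hA, hPl, hKl⟩ := hn0 q hqn0
  have hA2 := pad2 q P K 0 r r le_rfl hA
  rw [hq, Nat.zero_add, hr] at hA2
  -- the number `m`
  obtain ⟨m, hm⟩ : ∃ m : ℕ, m = ⌈(2 : ℝ) ^ (v * n / 2)⌉₊ := ⟨_, rfl⟩
  have hpow1 : (1 : ℝ) ≤ (2 : ℝ) ^ (v * n / 2) := Real.one_le_rpow (by norm_num) (by positivity)
  have hm1 : (2 : ℝ) ^ (v * n / 2) ≤ m := by rw [hm]; exact Nat.le_ceil _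
  have hm2 : (m : ℝ) ≤ 2 * (2 : ℝ) ^ (v * n / 2) := by
    have : (m : ℝ) < (2 : ℝ) ^ (v * n / 2) + 1 := by
      rw [hm]; exact Nat.ceil_lt_add_one (by positivity)
    linarith
  have hmpos : (0 : ℝ) < m := by linarith
  have hm3 : m ≤ 2 ^ n := by
    rw [hm]
    refine Nat.ceil_le.2 ?_
    push_cast
    rw [← Real.rpow_natCast]
    have h5 := mul_le_mul_of_nonneg_right hv2.le hnR.le
    exact Real.rpow_le_rpow_of_exponent_le (by norm_num) (by linarith)
  have hKpos : (0 : ℝ) < K := by exact_mod_cast hK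
  have hPpos : (0 : ℝ) < P := by exact_mod_cast hP
  have hKm : K ≤ m := by
    have hkk : Real.logb 2 K ≤ v * n / 2 := by
      have e1 : (p.2 + k) * q ≤ v * q := mul_le_mul_of_nonneg_right (by linarith) hq0
      have e2 : v * q ≤ v * n := mul_le_mul_of_nonneg_left (by linarith) hv0.le
      linarith
    have : (K : ℝ) ≤ (2 : ℝ) ^ (v * n / 2) := (Real.logb_le_iff_le_rpow (by norm_num) hKpos).1 hkk
    exact_mod_cast this.trans hm1
  have hA3 := pad4 n P K (lam n) m hA2 hKm hm3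
  obtain ⟨A, B, hAc, hBc, hcnt⟩ := hA3
  refine ⟨m, ⟨A, B, hAc, hBc, ?_⟩, ?_⟩
  · refine le_trans ?_ (show (P : ℝ) ≤ (cnt (lam n) A B : ℝ) by exact_mod_cast hcnt)
    rw [← Real.logb_le_logb (b := 2) (by norm_num) (by have := hc n; positivity) hPpos,
      Real.logb_mul (hc n).ne' (by positivity), Real.logb_pow]
    have f1 : Real.logb 2 m ≤ 1 + v * n / 2 := by
      rw [Real.logb_le_iff_le_rpow (by norm_num) hmpos, Real.rpow_add (by norm_num), Real.rpow_one]
      exact hm2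
    have f2 : Real.logb 2 (c n) ≤ (-γ + k) * n := by
      rw [lt_div_iff₀ hnR] at h2
      linarith
    have f3 : (v - γ + η - k) * q ≤ Real.logb 2 P :=
      le_trans (mul_le_mul_of_nonneg_right (by linarith) hq0) hPl
    have f4 : (v - γ + η - k) * r ≤ W * r := mul_le_mul_of_nonneg_right (by linarith) (Nat.cast_nonneg _)
    have f5 : W * r ≤ W * (k * n) := mul_le_mul_of_nonneg_left h1.le hW0.le
    have f6 : (v - γ + η - k) * q = (v - γ + η - k) * n - (v - γ + η - k) * r := by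
      rw [← hqR]; ring
    have f7 : W * (k * n) = η / 4 * n := by rw [← heW]; ring
    have f8 : k * n ≤ η / 4 * n := mul_le_mul_of_nonneg_right hkη hnR.le
    push_cast
    linarith
  · have : (2 : ℝ) ^ (v * n) = ((2 : ℝ) ^ (v * n / 2)) ^ 2 := by
      rw [← Real.rpow_natCast, ← Real.rpow_mul (by norm_num)]
      congr 1; push_cast; ring
    rw [this]
    exact pow_le_pow_left₀ (by positivity) hm1 2

end Run7.h459.IX
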