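import Pool.Agent.Run7.h96.IX.Stm2

/-!
Project IX (helper96), piece PHI.
-/

set_option autoImplicit false

open Finset Filter Topology

namespace Run7.h459.IX

open Run7.h96.IX

theorem t_PHI : S_NB → S_NB2 → S_PHI := by
  intro hNB hNB2 γ hγ
  have h2 : (1 : ℝ) < 2 := one_lt_two
  -- the sets are bounded below
  have hb : ∀ l : ℝ, (l = 0 ∨ l = 1) → BddBelow {y | ∃ s x : ℝ, 0 ≤ s ∧ s < 1 ∧ 0 < x ∧
      y = (Real.logb 2 (N s x) - l * Real.logb 2 x + γ) / (1 - s)} := by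
    intro l hl
    refine ⟨0, ?_⟩
    rintro y ⟨s, x, hs0, hs1, hx, rfl⟩
    obtain ⟨h1, hx1, -, -⟩ := hNB s x hs0 hx
    have hlog0 : 0 ≤ Real.logb 2 (N s x) := Real.logb_nonneg h2 h1
    have hlogx : Real.logb 2 x ≤ Real.logb 2 (N s x) := Real.logb_le_logb_of_le h2 hx hx1
    apply div_nonneg
    · rcases hl with rfl | rfl
      · linarith
      · linarith
    · linarith
  constructor
  · refine le_of_forall_pos_le_add ?_
    intro δ hδ
    have hpow : (1 : ℝ) < 2 ^ δ := Real.one_lt_rpow h2 hδ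
    have hx : (0 : ℝ) < 3 / (2 ^ δ - 1) := div_pos (by norm_num) (by linarith)
    set x : ℝ := 3 / (2 ^ δ - 1) with hxdef
    have hle : Phi 1 γ ≤ (Real.logb 2 (N 0 x) - 1 * Real.logb 2 x + γ) / (1 - 0) :=
      csInf_le (hb 1 (Or.inr rfl)) ⟨0, x, le_rfl, zero_lt_one, hx, rfl⟩
    have hNle : N 0 x ≤ 3 + x := ((hNB2 0 le_rfl).2.2 x hx).2
    have hN1 : 1 ≤ N 0 x := (hNB 0 x le_rfl hx).1
    have heq : 3 + x = 2 ^ δ * x := by
      have hne : (2 : ℝ) ^ δ - 1 ≠ 0 := by linarith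
      rw [hxdef]
      field_simp
      ring
    have h3 : Real.logb 2 (N 0 x) ≤ δ + Real.logb 2 x := by
      have h4 : Real.logb 2 (N 0 x) ≤ Real.logb 2 (2 ^ δ * x) := by
        rw [← heq]
        exact Real.logb_le_logb_of_le h2 (by linarith) hNle
      rw [Real.logb_mul (by positivity) hx.ne', Real.logb_rpow (by norm_num) (by norm_num)] at h4
      exact h4
    have h5 : (Real.logb 2 (N 0 x) - 1 * Real.logb 2 x + γ) / (1 - 0) =
        Real.logb 2 (N 0 x) - Real.logb 2 x + γ := by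
      rw [sub_zero, div_one, one_mul]
    rw [h5] at hle
    linarith
  · intro s hs0 hs1
    refine le_of_forall_pos_le_add ?_
    intro δ hδ
    have hpow : (1 : ℝ) < 2 ^ δ := Real.one_lt_rpow h2 hδ
    have hN0 : 1 ≤ N s 0 := (hNB2 s hs0).1
    have hx : (0 : ℝ) < (2 ^ δ - 1) * N s 0 := mul_pos (by linarith) (by linarith)
    set x : ℝ := (2 ^ δ - 1) * N s 0 with hxdef
    have hle : Phi 0 γ ≤ (Real.logb 2 (N s x) - 0 * Real.logb 2 x + γ) / (1 - s) :=
      csInf_le (hb 0 (Or.inl rfl)) ⟨s, x, hs0, hs1, hx, rfl⟩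
    have hs2 : (0 : ℝ) < 1 - s := by linarith
    rw [le_div_iff₀ hs2] at hle
    have hNle : N s x ≤ N s 0 + x := ((hNB2 s hs0).2.2 x hx).1
    have hN1 : 1 ≤ N s x := (hNB s x hs0 hx).1
    have heq : N s 0 + x = 2 ^ δ * N s 0 := by
      rw [hxdef]; ring
    have h3 : Real.logb 2 (N s x) ≤ δ + Real.logb 2 (N s 0) := by
      have h4 : Real.logb 2 (N s x) ≤ Real.logb 2 (2 ^ δ * N s 0) := by
        rw [← heq]
        exact Real.logb_le_logb_of_le h2 (by linarith) hNle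
      rw [Real.logb_mul (by positivity) (by linarith), Real.logb_rpow (by norm_num) (by norm_num)] at h4
      exact h4
    have h6 : (1 - s) * Phi 0 γ = Phi 0 γ * (1 - s) := mul_comm _ _
    rw [h6]
    linarith

end Run7.h459.IX
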