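import Pool.Agent.Run7.h96.IX.Stm

/-!
Project IX (helper96), piece UP.
-/

set_option autoImplicit false

open Finset Filter Topology

namespace Run7.h459.IX

open Run7.h96.IX

section
variable {α : Type} [DecidableEq α]

/-- the generating function of the intersections -/
def Z (x : ℝ) (A B : Finset (Finset α)) : ℝ := ∑ S ∈ A, ∑ T ∈ B, x ^ ((S ∩ T).card)

/-- sets without `a` -/
def lo (a : α) (A : Finset (Finset α)) : Finset (Finset α) := A.filter (fun S => ¬ a ∈ S)

/-- sets with `a`, which is then removed -/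
def hi (a : α) (A : Finset (Finset α)) : Finset (Finset α) :=
  (A.filter (fun S => a ∈ S)).image (fun S => S.erase a)

theorem erase_inj (a : α) (A : Finset (Finset α)) :
    Set.InjOn (fun S : Finset α => S.erase a) (A.filter (fun S => a ∈ S) : Finset (Finset α)) := by
  intro S hS T hT h
  rw [mem_coe, mem_filter] at hS hT
  have h' : S.erase a = T.erase a := h
  rw [← insert_erase hS.2, ← insert_erase hT.2, h']

theorem card_lo_hi (a : α) (A : Finset (Finset α)) : (lo a A).card + (hi a A).card = A.card := by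
  unfold lo hi
  rw [card_image_of_injOn (erase_inj a A), add_comm]
  exact card_filter_add_card_filter_not (s := A) (fun S => a ∈ S)

theorem sum_split (a : α) (A : Finset (Finset α)) (f : Finset α → ℝ) :
    ∑ S ∈ A, f S = ∑ S ∈ lo a A, f S + ∑ S ∈ hi a A, f (insert a S) := by
  unfold lo hi
  rw [sum_image (fun S hS T hT h => erase_inj a A hS hT h),
    ← sum_filter_add_sum_filter_not A (fun S => a ∈ S), add_comm]
  congr 1
  refine sum_congr rfl fun S hS => ?_
  rw [insert_erase (mem_filter.mp hS).2]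

theorem mem_lo {a : α} {A : Finset (Finset α)} {S : Finset α} (h : S ∈ lo a A) : a ∉ S :=
  (mem_filter.mp h).2

theorem mem_hi {a : α} {A : Finset (Finset α)} {S : Finset α} (h : S ∈ hi a A) : a ∉ S := by
  obtain ⟨T, _, rfl⟩ := mem_image.mp h
  exact notMem_erase a T

theorem Z_split (a : α) (x : ℝ) (A B : Finset (Finset α)) :
    Z x A B = Z x (lo a A) (lo a B) + Z x (lo a A) (hi a B) + Z x (hi a A) (lo a B) +
      x * Z x (hi a A) (hi a B) := by
  unfold Z
  rw [sum_split a A]
  have h1 : ∑ S ∈ lo a A, ∑ T ∈ B, x ^ ((S ∩ T).card) =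
      ∑ S ∈ lo a A, ∑ T ∈ lo a B, x ^ ((S ∩ T).card) +
        ∑ S ∈ lo a A, ∑ T ∈ hi a B, x ^ ((S ∩ T).card) := by
    rw [← sum_add_distrib]
    refine sum_congr rfl fun S hS => ?_
    rw [sum_split a B]
    congr 1
    refine sum_congr rfl fun T _ => ?_
    rw [inter_insert_of_notMem (mem_lo hS)]
  have h2 : ∑ S ∈ hi a A, ∑ T ∈ B, x ^ ((insert a S ∩ T).card) =
      ∑ S ∈ hi a A, ∑ T ∈ lo a B, x ^ ((S ∩ T).card) +
        x * ∑ S ∈ hi a A, ∑ T ∈ hi a B, x ^ ((S ∩ T).card) := by
    rw [mul_sum, ← sum_add_distrib]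
    refine sum_congr rfl fun S hS => ?_
    rw [sum_split a B, mul_sum]
    congr 1
    · refine sum_congr rfl fun T hT => ?_
      rw [insert_inter_of_notMem (mem_lo hT)]
    · refine sum_congr rfl fun T _ => ?_
      rw [← insert_inter_distrib, card_insert_of_notMem
        (fun h => mem_hi hS (mem_inter.mp h).1), pow_succ, mul_comm]
  rw [h1, h2]
  ring

theorem Z_nonneg (x : ℝ) (hx : 0 < x) (A B : Finset (Finset α)) : 0 ≤ Z x A B :=
  sum_nonneg fun _ _ => sum_nonneg fun _ _ => (pow_pos hx _).le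

end

theorem alg (s x : ℝ) (a0 a1 b0 b1 : ℝ) (ha0 : 0 ≤ a0) (ha1 : 0 ≤ a1) (hb0 : 0 ≤ b0) (hb1 : 0 ≤ b1)
    (hA : 0 < a0 + a1) (hB : 0 < b0 + b1)
    (hN : ∀ a b : ℝ, 0 ≤ a → a ≤ 1 → 0 ≤ b → b ≤ 1 → g s x a b ≤ N s x) :
    (a0 * b0) ^ s + (a0 * b1) ^ s + (a1 * b0) ^ s + x * (a1 * b1) ^ s ≤
      N s x * ((a0 + a1) * (b0 + b1)) ^ s := by
  have hα0 : 0 ≤ a1 / (a0 + a1) := by positivity
  have hβ0 : 0 ≤ b1 / (b0 + b1) := by positivity
  have hα1 : a1 / (a0 + a1) ≤ 1 := by
    rw [div_le_one hA]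
    linarith
  have hβ1 : b1 / (b0 + b1) ≤ 1 := by
    rw [div_le_one hB]
    linarith
  have h := hN _ _ hα0 hα1 hβ0 hβ1
  have e1 : 1 - a1 / (a0 + a1) = a0 / (a0 + a1) := by
    field_simp
    ring
  have e2 : 1 - b1 / (b0 + b1) = b0 / (b0 + b1) := by
    field_simp
    ring
  have hAs : (0 : ℝ) < (a0 + a1) ^ s := Real.rpow_pos_of_pos hA s
  have hBs : (0 : ℝ) < (b0 + b1) ^ s := Real.rpow_pos_of_pos hB s
  unfold g at h
  rw [e1, e2, Real.div_rpow ha0 hA.le, Real.div_rpow ha1 hA.le, Real.div_rpow hb0 hB.le,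
    Real.div_rpow hb1 hB.le] at h
  rw [Real.mul_rpow ha0 hb0, Real.mul_rpow ha0 hb1, Real.mul_rpow ha1 hb0, Real.mul_rpow ha1 hb1,
    Real.mul_rpow hA.le hB.le]
  have h2 := mul_le_mul_of_nonneg_right h (mul_pos hAs hBs).le
  refine le_trans (le_of_eq ?_) h2
  field_simp

theorem main {α : Type} [DecidableEq α] (s x : ℝ) (hx : 0 < x) (hN1 : 1 ≤ N s x)
    (hN : ∀ a b : ℝ, 0 ≤ a → a ≤ 1 → 0 ≤ b → b ≤ 1 → g s x a b ≤ N s x) (U : Finset α) :
    ∀ A B : Finset (Finset α), (∀ S ∈ A, S ⊆ U) → (∀ S ∈ B, S ⊆ U) →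
      Z x A B ≤ N s x ^ U.card * ((A.card : ℝ) * B.card) ^ s := by
  have hrhs : ∀ (k : ℕ) (a b : ℝ), 0 ≤ a → 0 ≤ b → 0 ≤ N s x ^ k * (a * b) ^ s := by
    intro k a b ha hb
    exact mul_nonneg (pow_nonneg (by linarith) _) (Real.rpow_nonneg (mul_nonneg ha hb) _)
  induction U using Finset.induction_on with
  | empty =>
    intro A B hA hB
    by_cases hA0 : A = ∅
    · subst hA0
      have : Z x ∅ B = 0 := by simp [Z]
      rw [this]
      exact hrhs _ _ _ (by simp) (by simp)
    by_cases hB0 : B = ∅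
    · subst hB0
      have : Z x A ∅ = 0 := by simp [Z]
      rw [this]
      exact hrhs _ _ _ (by simp) (by simp)
    have hA1 : A = {∅} := by
      ext S
      rw [mem_singleton]
      constructor
      · intro h
        exact subset_empty.mp (hA S h)
      · rintro rfl
        obtain ⟨T, hT⟩ := nonempty_iff_ne_empty.mpr hA0
        rw [← subset_empty.mp (hA T hT)]
        exact hT
    have hB1 : B = {∅} := by
      ext S
      rw [mem_singleton]
      constructor
      · intro h
        exact subset_empty.mp (hB S h)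
      · rintro rfl
        obtain ⟨T, hT⟩ := nonempty_iff_ne_empty.mpr hB0
        rw [← subset_empty.mp (hB T hT)]
        exact hT
    subst hA1 hB1
    simp [Z]
  | insert a U ha ih =>
    intro A B hA hB
    by_cases hA0 : A = ∅
    · subst hA0
      have : Z x ∅ B = 0 := by simp [Z]
      rw [this]
      exact hrhs _ _ _ (by simp) (by simp)
    by_cases hB0 : B = ∅
    · subst hB0
      have : Z x A ∅ = 0 := by simp [Z]
      rw [this]
      exact hrhs _ _ _ (by simp) (by simp)
    have hlo : ∀ C : Finset (Finset α), (∀ S ∈ C, S ⊆ insert a U) → ∀ S ∈ lo a C, S ⊆ U := by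
      intro C hC S hS
      exact (subset_insert_iff_of_notMem (mem_lo hS)).mp (hC S (mem_filter.mp hS).1)
    have hhi : ∀ C : Finset (Finset α), (∀ S ∈ C, S ⊆ insert a U) → ∀ S ∈ hi a C, S ⊆ U := by
      intro C hC S hS
      obtain ⟨T, hT, rfl⟩ := mem_image.mp hS
      exact subset_insert_iff.mp (hC T (mem_filter.mp hT).1)
    have hcA : ((lo a A).card : ℝ) + (hi a A).card = A.card := by exact_mod_cast card_lo_hi a A
    have hcB : ((lo a B).card : ℝ) + (hi a B).card = B.card := by exact_mod_cast card_lo_hi a B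
    have hA1 : (0 : ℝ) < A.card := by exact_mod_cast card_pos.mpr (nonempty_iff_ne_empty.mpr hA0)
    have hB1 : (0 : ℝ) < B.card := by exact_mod_cast card_pos.mpr (nonempty_iff_ne_empty.mpr hB0)
    rw [Z_split a, card_insert_of_notMem ha, pow_succ]
    have i1 := ih (lo a A) (lo a B) (hlo A hA) (hlo B hB)
    have i2 := ih (lo a A) (hi a B) (hlo A hA) (hhi B hB)
    have i3 := ih (hi a A) (lo a B) (hhi A hA) (hlo B hB)
    have i4 := ih (hi a A) (hi a B) (hhi A hA) (hhi B hB)
    have i4' := mul_le_mul_of_nonneg_left i4 hx.le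
    have halg := alg s x (lo a A).card (hi a A).card (lo a B).card (hi a B).card
      (Nat.cast_nonneg _) (Nat.cast_nonneg _) (Nat.cast_nonneg _) (Nat.cast_nonneg _)
      (by rw [hcA]; exact hA1) (by rw [hcB]; exact hB1) hN
    rw [hcA, hcB] at halg
    have hNU : 0 ≤ N s x ^ U.card := pow_nonneg (by linarith) _
    have h5 := mul_le_mul_of_nonneg_left halg hNU
    calc Z x (lo a A) (lo a B) + Z x (lo a A) (hi a B) + Z x (hi a A) (lo a B) +
          x * Z x (hi a A) (hi a B)
        ≤ N s x ^ U.card * ((((lo a A).card : ℝ) * (lo a B).card) ^ s +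
            (((lo a A).card : ℝ) * (hi a B).card) ^ s + (((hi a A).card : ℝ) * (lo a B).card) ^ s +
            x * (((hi a A).card : ℝ) * (hi a B).card) ^ s) := by
          nlinarith
      _ ≤ N s x ^ U.card * (N s x * ((A.card : ℝ) * B.card) ^ s) := h5
      _ = N s x ^ U.card * N s x * ((A.card : ℝ) * B.card) ^ s := by ring

theorem t_UP : S_NB → S_UP := by
  intro hNB n A B s x hs hx
  obtain ⟨h1, _, h2, _⟩ := hNB s x hs hx
  have h := main s x hx h1 h2 (univ : Finset (Fin n)) A B (fun S _ => subset_univ S)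
    (fun S _ => subset_univ S)
  rw [card_univ, Fintype.card_fin] at h
  rw [sum_product]
  exact h

end Run7.h459.IX
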